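import Mathlib
import Pool.Agent.H33.Majority

set_option autoImplicit false

namespace Pool.Agent.Results.MP_ec2f19_co.Eulerian

open Pool.Agent.H33.Majority

lemma split {α : Type} [Fintype α] (H : SimpleGraph α) (p : α → Fin 3) (v : α) :
    {u | H.Adj v u ∧ p u = p v}.ncard + {u | H.Adj v u ∧ p u ≠ p v}.ncard =
      (H.neighborSet v).ncard := by
  rw [← Set.ncard_union_eq]
  · congr 1
    ext u
    simp only [Set.mem_union, Set.mem_ofPred_eq, SimpleGraph.mem_neighborSet]
    tauto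
  · rw [Set.disjoint_left]
    rintro u ⟨_, h⟩ ⟨_, h'⟩
    exact h' h

theorem result : ∃ (V : Type) (_ : Fintype V) (R B : SimpleGraph V), Disjoint R B ∧
    (∀ v, (R.neighborSet v).ncard = (B.neighborSet v).ncard) ∧
    ¬ ∃ p : V → Fin 3, ∀ v,
      {u | R.Adj v u ∧ p u = p v}.ncard ≤ {u | R.Adj v u ∧ p u ≠ p v}.ncard ∧
      {u | B.Adj v u ∧ p u = p v}.ncard ≤ {u | B.Adj v u ∧ p u ≠ p v}.ncard := by
  refine ⟨V (2 * 0 + 1), inferInstance, G _ true, G _ false, disj _, euler _, ?_⟩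
  rintro ⟨p, hp⟩
  refine no_partition 0 p fun s v => ?_
  have h := split (G (2 * 0 + 1) s) p v
  cases s
  · have := (hp v).2
    omega
  · have := (hp v).1
    omega

end Pool.Agent.Results.MP_ec2f19_co.Eulerian
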